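import Pool.Agent.Cov8.Main

set_option autoImplicit false

/-!
The linear covering density for fixed radius: limits along the residue classes of the codimension.
-/

namespace Pool.Agent.Results.MP_8b8ab9_co.CodimensionLimits

open N8b55e67f Filter Topology Pool.Agent.Cov8
open scoped ENNReal

/-- For every radius `r ≥ 1` the normalised optimal density `len r c ^ r / (r! 2 ^ c)` of linear
coverings of codimension `c` has a limit `L j ≥ 1` as `c → ∞` in each residue class `j` modulo `r`;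
every single covering of codimension at least `c` in length `n` gives
`L (c mod r) ≤ (n + r) ^ r / (r! 2 ^ c)`; `f r` is the least of these limits, `f_all r` is twice the
greatest, and `max (2, 2 f r) ≤ f_all r ≤ 2 ^ r f r`. -/
theorem result (r : ℕ) (hr : 1 ≤ r) : ∃ L : ℕ → ℝ,
    (∀ j < r, 1 ≤ L j ∧
      Tendsto (fun m : ℕ => (len r (j + r * m) : ℝ) ^ r / (r.factorial * 2 ^ (j + r * m)))
        atTop (𝓝 (L j))) ∧
    (∀ n c : ℕ, HasCode r n c → L (c % r) ≤ ((n : ℝ) + r) ^ r / (r.factorial * 2 ^ c)) ∧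
    (∃ j < r, f r = ENNReal.ofReal (L j) ∧ ∀ i < r, L j ≤ L i) ∧
    (∃ j < r, f_all r = ENNReal.ofReal (2 * L j) ∧ ∀ i < r, L i ≤ L j) ∧
    2 ≤ f_all r ∧ 2 * f r ≤ f_all r ∧ f_all r ≤ 2 ^ r * f r := by
  obtain ⟨j0, hj0, hmin⟩ := Finset.exists_min_image (Finset.range r) (Lj r)
    ⟨0, Finset.mem_range.2 hr⟩
  obtain ⟨j1, hj1, hmax⟩ := Finset.exists_max_image (Finset.range r) (Lj r)
    ⟨0, Finset.mem_range.2 hr⟩
  have hf : f r = ENNReal.ofReal (Lj r j0) :=
    le_antisymm (f_le_Lj hr j0) (f_ge hr _ (fun j hj => hmin j (Finset.mem_range.2 hj)))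
  have hfa : f_all r = ENNReal.ofReal (2 * Lj r j1) :=
    le_antisymm (f_all_le hr _ (fun j hj => hmax j (Finset.mem_range.2 hj))) (Lj_le_f_all hr j1)
  have hL1 := one_le_Lj hr j1
  have hL0 := one_le_Lj hr j0
  refine ⟨Lj r, fun j hj => ⟨one_le_Lj hr j, ?_⟩, fun n c hnc => ?_,
    ⟨j0, Finset.mem_range.1 hj0, hf, fun i hi => hmin i (Finset.mem_range.2 hi)⟩,
    ⟨j1, Finset.mem_range.1 hj1, hfa, fun i hi => hmax i (Finset.mem_range.2 hi)⟩, ?_, ?_, ?_⟩
  · have h := tendsto_T0 hr j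
    unfold T at h
    simpa only [add_zero] using h
  · have h := Lj_le (r := r) (c % r) (c / r)
    rw [Nat.mod_add_div] at h
    refine h.trans ?_
    unfold T
    have h2 : (len r c : ℝ) ≤ n := by exact_mod_cast (hasCode_iff hr n c).1 hnc
    gcongr
  · rw [hfa]
    have : (2 : ℝ≥0∞) = ENNReal.ofReal 2 := by simp
    rw [this]
    exact ENNReal.ofReal_le_ofReal (by linarith)
  · rw [hfa, hf, ENNReal.ofReal_mul (by norm_num), ENNReal.ofReal_ofNat]
    gcongr
    exact hmin j1 hj1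
  · rw [hfa, hf]
    have h1 := Lj_compare hr (Finset.mem_range.1 hj1) (Finset.mem_range.1 hj0)
    have h2 : (2 : ℝ≥0∞) ^ r = ENNReal.ofReal (2 ^ r) := by
      rw [ENNReal.ofReal_pow (by norm_num), ENNReal.ofReal_ofNat]
    rw [h2, ← ENNReal.ofReal_mul (by positivity)]
    apply ENNReal.ofReal_le_ofReal
    obtain ⟨s, rfl⟩ : ∃ s, r = s + 1 := ⟨r - 1, by omega⟩
    rw [Nat.add_sub_cancel] at h1
    rw [pow_succ]
    linarith

end Pool.Agent.Results.MP_8b8ab9_co.CodimensionLimits
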