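import Pool.Agent.H33.CovMain

set_option autoImplicit false

/-!
An upper bound for the linear covering density along the best lengths.
-/

namespace Pool.Agent.Results.MP_8b8ab9_co.LiminfUpperBound

open N8b55e67f Filter Pool.Agent.H33.Cov
open scoped ENNReal Pointwise Topology

/-- The linear covering density along the best lengths, `f r` (the limit inferior over all lengths
`n` of the least density of a linear covering of `𝔽₂ⁿ` by balls of radius `r`), is at most
`(1 + o(1)) * r * log r` as `r → ∞`. -/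
theorem result (ε : ℝ) (hε : 0 < ε) :
    ∀ᶠ r : ℕ in atTop, f r ≤ ENNReal.ofReal ((1 + ε) * (r * Real.log r)) := by
  -- choice of `K`
  have h0 : Tendsto (fun K : ℕ => (K : ℝ) - 1) atTop atTop :=
    tendsto_atTop_add_const_right _ _ tendsto_natCast_atTop_atTop
  have h1 : Tendsto (fun K : ℕ => Real.exp (2 / ((K : ℝ) - 1)) * (1 + 1 / ((K : ℝ) - 1))) atTop
      (𝓝 (Real.exp 0 * (1 + 0))) := by
    apply Tendsto.mul
    · apply (Real.continuous_exp.tendsto 0).comp
      exact Tendsto.div_atTop tendsto_const_nhds h0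
    · apply Tendsto.const_add
      exact Tendsto.div_atTop tendsto_const_nhds h0
  rw [Real.exp_zero, add_zero, mul_one] at h1
  obtain ⟨K, hK1, hK2⟩ := ((h1.eventually (gt_mem_nhds (show (1 : ℝ) < 1 + ε / 2 by linarith))).and
    (eventually_ge_atTop 2)).exists
  have hKr : (2 : ℝ) ≤ K := by exact_mod_cast hK2
  have hKeq : (K : ℝ) / ((K : ℝ) - 1) = 1 + 1 / ((K : ℝ) - 1) := by
    have : (K : ℝ) - 1 ≠ 0 := by linarith
    field_simp
    ring
  -- choice of `r`
  set δ : ℝ := (ε / 2) / (1 + ε / 2) with hδ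
  have hδ0 : 0 < δ := by positivity
  have h2 : Tendsto (fun r : ℕ => δ * Real.log r) atTop atTop :=
    Tendsto.const_mul_atTop hδ0 (Real.tendsto_log_atTop.comp tendsto_natCast_atTop_atTop)
  filter_upwards [h2.eventually_ge_atTop (Real.log K + 2), eventually_ge_atTop 1]
    with r hr hr1
  refine (f_le hr1 hK2).trans (ENNReal.ofReal_le_ofReal ?_)
  have hr0 : (1 : ℝ) ≤ r := by exact_mod_cast hr1
  have hlog : 0 ≤ Real.log r := Real.log_nonneg hr0
  have hl2 : Real.log 2 ≤ 1 := by
    have := Real.log_two_lt_d9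
    linarith
  have h3 : r * (Real.log r + Real.log K + 1) + Real.log 2 ≤ (1 + δ) * (r * Real.log r) := by
    nlinarith
  have h5 : 0 ≤ (1 + δ) * (r * Real.log r) := by positivity
  unfold bnd'
  rw [hKeq]
  have h6 : 0 ≤ Real.exp (2 / ((K : ℝ) - 1)) * (1 + 1 / ((K : ℝ) - 1)) := by
    have : (0 : ℝ) < (K : ℝ) - 1 := by linarith
    positivity
  calc Real.exp (2 / ((K : ℝ) - 1)) * (1 + 1 / ((K : ℝ) - 1)) *
        (r * (Real.log r + Real.log K + 1) + Real.log 2)
      ≤ Real.exp (2 / ((K : ℝ) - 1)) * (1 + 1 / ((K : ℝ) - 1)) * ((1 + δ) * (r * Real.log r)) :=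
        mul_le_mul_of_nonneg_left h3 h6
    _ ≤ (1 + ε / 2) * ((1 + δ) * (r * Real.log r)) := mul_le_mul_of_nonneg_right hK1.le h5
    _ = (1 + ε) * (r * Real.log r) := by
        rw [hδ]
        field_simp
        ring

end Pool.Agent.Results.MP_8b8ab9_co.LiminfUpperBound
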